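import Pool.Agent.TH483.Io.Part

/-!
# Every balanced partition of a linear-size circuit has linear communication

If a linear circuit computes a matrix with nonzero minors and has a linear number of edges at the
inputs and outputs, then in every partition of its inner gates into few classes with not too many of
these edges each, one class is joined to the others through a matrix of linear rank.
-/

set_option autoImplicit false

open Finset

namespace Pool.Agent.Results.MP_5daf37_lc.BalancedPartition

open Pool.Agent.TH483.Io

/-- `IOCircuit F n`: linear circuits over `F` with `n` inputs, inner gates and `n` output gates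
(which feed no gate). `MinorsNonzero A`: all minors of `A`, of all orders, are nonzero. `C.gg`: the
matrix of the scalars on the edges between inner gates (columns: the gate left, rows: the gate
entered). `blk G R S`: the block of `G` with rows in `R` and columns in `S`. `C.ioDeg g`: the number
of the edges from inputs to `g` plus the number of the edges from `g` to output gates.

Let all minors of `A` be nonzero, let `C` compute `B`, let at most `c n` edges leave the inputs or
enter the output gates, `c (c + 1) ≤ n`, let `S` be a set of inner gates and let the inner gates
outside `S` be partitioned into classes (the class of `g` is `κ g`) such that in each class the sum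
of the `ioDeg g` is at most `2 n / (c (c + 1))`.
(1) There is a union of classes, joined to the other classes through a matrix of rank `r`, such that
`n ≤ 2 ^ (c + 1) (|S| + rank (A - B) + r)`.
(2) If there are at most `k` classes, there is one class, joined to the other classes through a
matrix of rank `r`, such that `n ≤ 2 ^ (c + 1) (|S| + rank (A - B) + k r)`.
(3) All minors of the Hilbert matrix are nonzero in characteristic zero. -/
theorem result :
    (∀ (F : Type) [Field F] (n : ℕ) (A B : Matrix (Fin n) (Fin n) F), MinorsNonzero A →
      ∀ C : IOCircuit F n, C.Computes B → ∀ c : ℕ, c * (c + 1) ≤ n →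
      C.inputEdges + C.outputEdges ≤ c * n →
      ∀ (S : Finset (Fin C.size)) (κ : Fin C.size → ℕ),
      (∀ p, c * (c + 1) * ∑ g ∈ univ.filter (fun g => g ∉ S ∧ κ g = p), C.ioDeg g ≤ 2 * n) →
        (∃ U : Set ℕ, n ≤ 2 ^ (c + 1) * (S.card + (A - B).rank +
          (blk C.gg {g | g ∉ S ∧ κ g ∉ U} {g | g ∉ S ∧ κ g ∈ U}).rank)) ∧
        (∀ k : ℕ, (∀ g, g ∉ S → κ g < k) → ∃ p : ℕ, n ≤ 2 ^ (c + 1) * (S.card + (A - B).rank +
          k * (blk C.gg {g | g ∉ S ∧ κ g ≠ p} {g | g ∉ S ∧ κ g = p}).rank))) ∧
    (∀ (F : Type) [Field F] [CharZero F] (n : ℕ), MinorsNonzero (hilbert F n)) :=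
  ⟨fun _ _ _ A B hA C hC c hcn hc S κ hpiece =>
      ⟨part_union C A B hA hC c hcn hc S κ hpiece,
        fun k hk => part_class C A B hA hC c hcn hc S κ hpiece k hk⟩,
    fun F _ _ n => hilbert_minors F n⟩

end Pool.Agent.Results.MP_5daf37_lc.BalancedPartition
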