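import Pool.Agent.TH708.Fat.Lin
import Pool.Agent.TH708.Fat.Hilb

/-!
# Linear circuits need many nodes through which many variable-output pairs pass
-/

set_option autoImplicit false

namespace Pool.Agent.Results.MP_5daf37_lc.HeavyNodes

open H633LC Pool.Agent.TH708.Fat

/-- Call a node of a linear circuit `θ`-heavy if the number of variables with a directed path to it
times the number of outputs with a directed path from it exceeds `θ`. Let all minors (of all
orders) of the `n × n` matrix `A` be nonzero, let `B` be a matrix with `rank (A - B) ≤ r`, let `C`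
be a linear circuit computing `B`, and let `s` exceed `r` plus the number of `θ`-heavy nodes of
`C`, `48 s ≤ n`. Then `n² Λ² ≤ 8 (s + Λ) θ size(C)`, where `Λ = log₂ (n / (48 s))`.
The Hilbert matrix has nonzero minors in characteristic zero. -/
theorem result :
    (∀ (F : Type) [Field F] (n : ℕ) (A B : Fin n → Fin n → F),
      (∀ (k : ℕ) (p q : Fin k → Fin n), Function.Injective p → Function.Injective q →
        Matrix.det (Matrix.of fun a b => A (p a) (q b)) ≠ 0) →
      ∀ C : LinCircuit F n n, C.Computes B → ∀ r s θ : ℕ,
        (Matrix.of A - Matrix.of B).rank ≤ r → (heavy C θ).card + r < s → 48 * s ≤ n →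
        (n : ℝ) ^ 2 * (Real.logb 2 (n / (48 * s))) ^ 2 ≤
          8 * (s + Real.logb 2 (n / (48 * s))) * (θ * C.size)) ∧
    (∀ (F : Type) [Field F] [CharZero F] (n k : ℕ) (p q : Fin k → Fin n),
      Function.Injective p → Function.Injective q →
        Matrix.det (Matrix.of fun a b => hilbert F n (p a) (q b)) ≠ 0) :=
  ⟨fun _ _ _ A B hA C hC r s θ hr hT hn => lin_heavy C A B hC hA r s θ hr hT hn,
    fun F _ _ n k p q hp hq => hilbert_minor F n k p q hp hq⟩

end Pool.Agent.Results.MP_5daf37_lc.HeavyNodes
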