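import Pool.Agent.TH483.Io.RBound

/-!
# Linear circuits whose inner gates have small rank-width or small treewidth

The inputs may be read by any number of gates and the output gates may have any number of
predecessors; only the matrix of the edges between the remaining gates has small rank-width (its
graph may be dense), or its graph has small treewidth. The number of edges leaving the inputs or
entering the outputs is superlinear as long as this width is sublinear, whatever the number of the
gates and the depth.
-/

set_option autoImplicit false

namespace Pool.Agent.Results.MP_5daf37_lc.LowRankCutsInside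

open Pool.Agent.TH483.Io

/-- `IOCircuit F n`: linear circuits over `F` with `n` inputs, inner gates and `n` output gates
(which feed no gate). `MinorsNonzero A`: all minors of `A`, of all orders, are nonzero. `C.gg`: the
matrix of the scalars on the edges between inner gates. `C.adj`: the graph on the inner gates, i.e.
the inputs and the output gates are deleted. `RankWidthLe C.gg t`: the inner gates are the leaves of
a rooted binary tree such that for the set `X` of the leaves below any node the blocks of `C.gg`
with rows in `X` and columns outside `X`, and with rows outside `X` and columns in `X`, have rank at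
most `t`.

Let `C` compute a matrix `B`, let `ρ` be the rank of `A - B`, let the inner gates have rank-width at
most `t` or treewidth at most `t`, and let `L` be the number of edges leaving the inputs plus the
number of edges entering the output gates.
(1) If `L ≤ c n` for a natural number `c`, then `n ≤ 2 ^ c (2 ρ + 3 c ² (c + 1) (t + 1))`.
(2) For every `ε > 0` there is `K > 0` (for all fields) such that
`L ≥ (1 - ε) n log₂ (n / (t + 1 + ρ))` whenever `K (t + 1 + ρ) ≤ n`.
(3) All minors of the Hilbert matrix are nonzero in characteristic zero. -/
theorem result :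
    (∀ (F : Type) [Field F] (n : ℕ) (A B : Matrix (Fin n) (Fin n) F), MinorsNonzero A →
      ∀ C : IOCircuit F n, C.Computes B → ∀ t : ℕ, (RankWidthLe C.gg t ∨ HasTreeDec C.adj t) →
      ∀ c : ℕ, C.inputEdges + C.outputEdges ≤ c * n →
        n ≤ 2 ^ c * (2 * (A - B).rank + 3 * c ^ 2 * (c + 1) * (t + 1))) ∧
    (∀ ε : ℝ, 0 < ε → ∃ K : ℝ, 0 < K ∧ ∀ (F : Type) [Field F] (n : ℕ)
      (A B : Matrix (Fin n) (Fin n) F), MinorsNonzero A →
      ∀ C : IOCircuit F n, C.Computes B → ∀ t : ℕ, (RankWidthLe C.gg t ∨ HasTreeDec C.adj t) →
      K * (t + 1 + (A - B).rank : ℕ) ≤ n →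
        (1 - ε) * (n * Real.logb 2 (n / (t + 1 + (A - B).rank : ℕ))) ≤
          (C.inputEdges + C.outputEdges : ℕ)) ∧
    (∀ (F : Type) [Field F] [CharZero F] (n : ℕ), MinorsNonzero (hilbert F n)) := by
  refine ⟨fun F _ n A B hA C hC t hT c hc => ?_, fun ε hε => ?_, fun F _ _ n => hilbert_minors F n⟩
  · rcases hT with hT | hT
    · refine (rank_bound C A B hA hC t hT c hc).trans (Nat.mul_le_mul_left _
        (Nat.add_le_add_left ?_ _))
      calc c ^ 2 * (c + 1) * (3 * t + 1) ≤ c ^ 2 * (c + 1) * (3 * (t + 1)) :=
            Nat.mul_le_mul_left _ (by omega)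
        _ = 3 * c ^ 2 * (c + 1) * (t + 1) := by ring
    · exact io_bound C A B hA hC t hT c hc
  · obtain ⟨K, hK, h⟩ := io_asym ε hε
    obtain ⟨K', hK', h'⟩ := rank_asym ε hε
    refine ⟨max K K', lt_max_of_lt_left hK, fun F _ n A B hA C hC t hT hs => ?_⟩
    rcases hT with hT | hT
    · exact h' F n C A B hA hC t hT
        ((mul_le_mul_of_nonneg_right (le_max_right _ _) (Nat.cast_nonneg _)).trans hs)
    · exact h F n C A B hA hC t hT
        ((mul_le_mul_of_nonneg_right (le_max_left _ _) (Nat.cast_nonneg _)).trans hs)

end Pool.Agent.Results.MP_5daf37_lc.LowRankCutsInside
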