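import Pool.Agent.TH483.Io.AsymB
import Pool.Agent.TH483.Io.Asym

/-!
# Linear circuits which split into two parts of small treewidth

In every linear circuit with a linear number of edges which computes a matrix with nonzero minors,
whatever set `D` of gates (without outputs) is computed first, one of the graphs on `D` and on the
remaining gates (the inputs are deleted) has linear treewidth.
-/

set_option autoImplicit false

namespace Pool.Agent.Results.MP_5daf37_lc.TwoParts

open Pool.Agent.H468R2.Lin Pool.Agent.TH483.Io

/-- Let all minors of the `n × n` matrix `A` be nonzero (`MinorsNonzero`), let the linear circuit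
`C` compute `B` and put `s = t + 1 + rank (A - B)`. Let `D` be a set of gates of `C` which contains
with every gate all gates feeding it and which does not contain outputs, and assume that the graph
on the gates without the edges between `D` and its complement (`splitAdj`; the inputs are deleted)
has treewidth at most `t`. Let `W = crossEdges C D` be the number of edges entering the complement
of `D` from `D` or from inputs.
(1) If `c, d ≥ 1` are natural numbers, at most `c n` edges leave the inputs and `W ≤ d n`, then
`n ≤ 8 Z (15 Z (t + 1) + rank (A - B))` with `Z = (c + 1) (16 d) ^ c`.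
(2) If at most `c n` edges leave the inputs, `c ≥ 1`, then
`n / (120 (c + 1) ² s) ≤ (16 (W / n + 1)) ^ (2 c)`.
(3) If `2 ^ 128 s ≤ n` and `L` is `W` plus the number of edges leaving the inputs, then
`n log₂ y ≤ 4 L log₂ (log₂ y)` with `y = n / s`.
(4) All minors of the Hilbert matrix are nonzero in characteristic zero. -/
theorem result :
    (∀ (F : Type) [Field F] (n : ℕ) (A B : Matrix (Fin n) (Fin n) F), MinorsNonzero A →
      ∀ C : LinCircuit F n, C.Computes B → ∀ D : Finset (Fin C.size),
      (∀ g ∈ D, ∀ h, C.cg g h ≠ 0 → h ∈ D) → (∀ j, ∃ g, C.out j = Sum.inr g ∧ g ∉ D) →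
      ∀ t : ℕ, Pool.Agent.H468R2.Lin.HasTreeDec (splitAdj C D) t →
        (∀ c d : ℕ, 1 ≤ c → 1 ≤ d → C.inputEdges ≤ c * n → crossEdges C D ≤ d * n →
          n ≤ 8 * ((c + 1) * (16 * d) ^ c) *
            (15 * ((c + 1) * (16 * d) ^ c) * (t + 1) + (A - B).rank)) ∧
        (∀ c : ℕ, 1 ≤ c → C.inputEdges ≤ c * n →
          (n : ℝ) / (120 * (c + 1) ^ 2 * (t + 1 + (A - B).rank : ℕ)) ≤
            (16 * ((crossEdges C D : ℝ) / n + 1)) ^ (2 * c)) ∧
        (2 ^ 128 * (t + 1 + (A - B).rank) ≤ n →
          (n : ℝ) * Real.logb 2 (n / (t + 1 + (A - B).rank : ℕ)) ≤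
            4 * (C.inputEdges + crossEdges C D : ℕ) *
              Real.logb 2 (Real.logb 2 (n / (t + 1 + (A - B).rank : ℕ))))) ∧
    (∀ (F : Type) [Field F] [CharZero F] (n : ℕ),
      MinorsNonzero (Pool.Agent.TH483.Io.hilbert F n)) :=
  ⟨fun _ _ _ A B hA C hC D hD hO t hT =>
      ⟨fun c d hc1 hd1 hc hd => two_bound C A B hA hC D hD hO t hT c d hc1 hd1 hc hd,
        fun c hc1 hc => two_fan C A B hA hC D hD hO t hT c hc1 hc,
        fun hK => two_asym C A B hA hC D hD hO t hT hK⟩,
    fun F _ _ n => hilbert_minors F n⟩

end Pool.Agent.Results.MP_5daf37_lc.TwoParts
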